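import Mathlib

/-! Pattern densities of binary words: iterated integrals and the inequality for 1100 and 10. -/

set_option autoImplicit false

open MeasureTheory Set Filter intervalIntegral

namespace Pool.Agent.Q281.Pat

/-- the factor of a letter: `f` for the letter one, `1 - f` for the letter zero -/
def fac (f : ℝ → ℝ) (b : Bool) (x : ℝ) : ℝ := if b then f x else 1 - f x

/-- `iter f w t` is the integral of the product of the factors over `t ≤ x_1 ≤ ... ≤ x_m ≤ 1`,
written as an iterated integral -/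
noncomputable def iter (f : ℝ → ℝ) : List Bool → ℝ → ℝ
  | [], _ => 1
  | b :: w, t => ∫ x in t..1, fac f b x * iter f w x

/-- the density of the word `w` -/
noncomputable def dens (f : ℝ → ℝ) (w : List Bool) : ℝ := (w.length.factorial : ℝ) * iter f w 0

/-- measurable functions with values in the unit interval -/
def Adm (f : ℝ → ℝ) : Prop := Measurable f ∧ ∀ x, 0 ≤ f x ∧ f x ≤ 1

theorem ftc {F φ : ℝ → ℝ} {a b : ℝ} (hAC : AbsolutelyContinuousOnInterval F a b)
    (h : ∀ᵐ x, x ∈ uIcc a b → HasDerivAt F (φ x) x) : ∫ x in a..b, φ x = F b - F a := by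
  rw [← hAC.integral_deriv_eq_sub]
  apply intervalIntegral.integral_congr_ae
  filter_upwards [h] with x hx hx2
  exact (hx (uIoc_subset_uIcc hx2)).deriv.symm

section
variable {f : ℝ → ℝ}

theorem Adm.li (hf : Adm f) : LocallyIntegrable f volume := by
  refine (locallyIntegrable_const (1 : ℝ)).mono hf.1.aestronglyMeasurable ?_
  filter_upwards with x
  rw [Real.norm_eq_abs, abs_of_nonneg (hf.2 x).1, norm_one]
  exact (hf.2 x).2

theorem Adm.ii (hf : Adm f) (a b : ℝ) : IntervalIntegrable f volume a b :=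
  (hf.li.integrableOn_isCompact isCompact_uIcc).intervalIntegrable

theorem Adm.compl (hf : Adm f) : Adm (fun x => 1 - f x) :=
  ⟨measurable_const.sub hf.1, fun x => ⟨by linarith [(hf.2 x).2], by linarith [(hf.2 x).1]⟩⟩

/-- the mass of the ones up to `t` -/
noncomputable def X (f : ℝ → ℝ) (t : ℝ) : ℝ := ∫ s in (0 : ℝ)..t, f s

/-- the mass of the zeros after `t` -/
noncomputable def D (f : ℝ → ℝ) (t : ℝ) : ℝ := ∫ s in t..(1 : ℝ), (1 - f s)

theorem X_deriv (hf : Adm f) : ∀ᵐ t, HasDerivAt (X f) (f t) t := by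
  filter_upwards [_root_.LocallyIntegrable.ae_hasDerivAt_integral hf.li] with t ht
  exact ht 0

theorem D_eq (hf : Adm f) (t : ℝ) : D f t = (1 - t) - (X f 1 - X f t) := by
  unfold D X
  rw [integral_sub intervalIntegrable_const (hf.ii t 1), intervalIntegral.integral_const, smul_eq_mul, mul_one,
    integral_interval_sub_left (hf.ii 0 1) (hf.ii 0 t)]

theorem X_zero : X f 0 = 0 := by unfold X; simp

theorem D_one : D f 1 = 0 := by unfold D; simp

theorem X_sub (hf : Adm f) (s t : ℝ) : X f t - X f s = ∫ x in s..t, f x := by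
  unfold X
  rw [integral_interval_sub_left (hf.ii 0 t) (hf.ii 0 s)]

theorem X_mono (hf : Adm f) {s t : ℝ} (h : s ≤ t) : X f s ≤ X f t := by
  have := X_sub hf s t
  have h2 : 0 ≤ ∫ x in s..t, f x := integral_nonneg h fun x _ => (hf.2 x).1
  linarith

theorem X_lip (hf : Adm f) {s t : ℝ} (h : s ≤ t) : X f t - X f s ≤ t - s := by
  rw [X_sub hf s t]
  have h2 : ∫ x in s..t, f x ≤ ∫ x in s..t, (1 : ℝ) :=
    integral_mono_on h (hf.ii s t) intervalIntegrable_const fun x _ => (hf.2 x).2
  simpa using h2

theorem X_cont (hf : Adm f) : Continuous (X f) := continuous_primitive (fun a b => hf.ii a b) 0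

theorem D_cont (hf : Adm f) : Continuous (D f) := by
  have : D f = fun t => (1 - t) - (X f 1 - X f t) := funext fun t => D_eq hf t
  rw [this]
  have := X_cont hf
  fun_prop

theorem D_deriv (hf : Adm f) : ∀ᵐ t, HasDerivAt (D f) (-(1 - f t)) t := by
  filter_upwards [X_deriv hf] with t ht
  have : D f = fun t => (1 - t) - (X f 1 - X f t) := funext fun t => D_eq hf t
  rw [this]
  have h1 : HasDerivAt (fun t : ℝ => (1 - t) - (X f 1 - X f t)) ((0 - 1) - (0 - f t)) t :=
    ((hasDerivAt_const t (1 : ℝ)).sub (hasDerivAt_id t)).sub ((hasDerivAt_const t (X f 1)).sub ht)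
  convert h1 using 1
  ring

theorem X_ac (hf : Adm f) {a b : ℝ} (h0 : 0 ∈ uIcc a b) : AbsolutelyContinuousOnInterval (X f) a b :=
  (hf.ii a b).absolutelyContinuousOnInterval_intervalIntegral h0

theorem id_ac (a b : ℝ) : AbsolutelyContinuousOnInterval (fun t : ℝ => t) a b :=
  (LipschitzWith.id.lipschitzOnWith (s := uIcc a b)).absolutelyContinuousOnInterval

theorem const_ac (a b c : ℝ) : AbsolutelyContinuousOnInterval (fun _ : ℝ => c) a b :=
  ((LipschitzWith.const c).lipschitzOnWith (s := uIcc a b)).absolutelyContinuousOnInterval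

theorem D_ac (hf : Adm f) : AbsolutelyContinuousOnInterval (D f) 0 1 := by
  have : D f = fun t => (1 - t) - (X f 1 - X f t) := funext fun t => D_eq hf t
  rw [this]
  exact ((const_ac 0 1 1).sub (id_ac 0 1)).sub ((const_ac 0 1 (X f 1)).sub (X_ac hf left_mem_uIcc))

end

end Pool.Agent.Q281.Pat
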