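import Pool.Agent.Q281.Pat.Basic

/-! The lower bound for the density of 1100 given the density of 10, for words with equally many
ones and zeros. -/

set_option autoImplicit false

open MeasureTheory Set Filter intervalIntegral

namespace Pool.Agent.Q281.Pat

variable {f : ℝ → ℝ}

theorem iter_zero (t : ℝ) : iter f [false] t = D f t := by
  simp [iter, fac, D]

theorem dens_one : dens f [true] = X f 1 := by
  simp [dens, iter, fac, X]

theorem dens_one_zero : dens f [true, false] = 2 * ∫ x in (0 : ℝ)..1, f x * D f x := by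
  have : iter f [true, false] 0 = ∫ x in (0 : ℝ)..1, f x * D f x := by
    change ∫ x in (0 : ℝ)..1, fac f true x * iter f [false] x = _
    simp only [iter_zero, fac, if_true]
  simp [dens, this]

theorem iter_zero_zero (hf : Adm f) {t : ℝ} (h0 : 0 ≤ t) (h1 : t ≤ 1) : iter f [false, false] t = D f t ^ 2 / 2 := by
  have e : iter f [false, false] t = ∫ x in t..1, (1 - f x) * D f x := by
    change ∫ x in t..1, fac f false x * iter f [false] x = _
    simp only [iter_zero, fac]
    simp
  rw [e]
  have hD : AbsolutelyContinuousOnInterval (D f) t 1 := (D_ac hf).mono (by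
    rw [uIcc_of_le h1, uIcc_of_le (zero_le_one)]
    exact Icc_subset_Icc h0 le_rfl)
  have hAC : AbsolutelyContinuousOnInterval (fun x => (-1 / 2) * (D f x * D f x)) t 1 :=
    (hD.fun_mul hD).const_mul (-1 / 2)
  rw [ftc (F := fun x => (-1 / 2) * (D f x * D f x)) hAC]
  · rw [D_one]
    ring
  · filter_upwards [D_deriv hf] with x hx _
    have := (hx.mul hx).const_mul (-1 / 2 : ℝ)
    exact this.congr_deriv (by ring)

theorem hint (hf : Adm f) {g : ℝ → ℝ} (hg : Continuous g) (a b : ℝ) :
    IntervalIntegrable (fun x => f x * g x) volume a b :=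
  (hf.ii a b).mul_continuousOn hg.continuousOn

theorem dens_main (hf : Adm f) :
    dens f [true, true, false, false] = 12 * ∫ x in (0 : ℝ)..1, f x * (X f x * D f x ^ 2) := by
  have hc := X_cont hf
  have hd := D_cont hf
  set h : ℝ → ℝ := fun x => f x * (D f x ^ 2 / 2) with hh
  have hhi : ∀ a b : ℝ, IntervalIntegrable h volume a b := fun a b => hint hf (by fun_prop) a b
  set H : ℝ → ℝ := fun t => ∫ x in t..(1 : ℝ), h x with hH
  have e1 : ∀ t ∈ Icc (0 : ℝ) 1, iter f [true, false, false] t = H t := by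
    intro t ht
    change ∫ x in t..1, fac f true x * iter f [false, false] x = _
    rw [hH]
    refine intervalIntegral.integral_congr fun x hx => ?_
    rw [uIcc_of_le ht.2] at hx
    simp only [fac, if_true]
    rw [iter_zero_zero hf (ht.1.trans hx.1) hx.2]
  have e2 : iter f [true, true, false, false] 0 = ∫ x in (0 : ℝ)..1, f x * H x := by
    change ∫ x in (0 : ℝ)..1, fac f true x * iter f [true, false, false] x = _
    refine intervalIntegral.integral_congr fun x hx => ?_
    rw [uIcc_of_le zero_le_one] at hx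
    simp only [fac, if_true]
    rw [e1 x hx]
  have hHeq : H = fun t => (∫ x in (0 : ℝ)..1, h x) - ∫ x in (0 : ℝ)..t, h x := by
    funext t
    rw [integral_interval_sub_left (hhi 0 1) (hhi 0 t)]
  have hHc : Continuous H := by
    rw [hHeq]
    have := continuous_primitive (fun a b => hhi a b) 0
    fun_prop
  have hHac : AbsolutelyContinuousOnInterval H 0 1 := by
    rw [hHeq]
    exact (const_ac 0 1 _).sub ((hhi 0 1).absolutelyContinuousOnInterval_intervalIntegral left_mem_uIcc)
  have hHd : ∀ᵐ x, x ∈ uIcc (0 : ℝ) 1 → HasDerivAt H (-h x) x := by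
    filter_upwards [(hhi 0 1).ae_hasDerivAt_integral] with x hx hx2
    rw [hHeq]
    have := (hasDerivAt_const x (∫ x in (0 : ℝ)..1, h x)).sub (hx hx2 0 left_mem_uIcc)
    exact this.congr_deriv (by ring)
  have key : ∫ x in (0 : ℝ)..1, (f x * H x - X f x * h x) = X f 1 * H 1 - X f 0 * H 0 := by
    rw [ftc (F := fun x => X f x * H x) ((X_ac hf left_mem_uIcc).fun_mul hHac)]
    filter_upwards [X_deriv hf, hHd] with x h1 h2 h3
    have := h1.mul (h2 h3)
    exact this.congr_deriv (by ring)
  have hH1 : H 1 = 0 := by rw [hH]; simp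
  rw [hH1, X_zero, mul_zero, zero_mul, sub_zero, integral_sub (hint hf hHc 0 1)] at key
  · have e3 : ∫ x in (0 : ℝ)..1, X f x * h x = (1 / 2) * ∫ x in (0 : ℝ)..1, f x * (X f x * D f x ^ 2) := by
      rw [← intervalIntegral.integral_const_mul]
      refine intervalIntegral.integral_congr fun x _ => ?_
      simp only [hh]
      ring
    have e4 : iter f [true, true, false, false] 0 = (1 / 2) * ∫ x in (0 : ℝ)..1, f x * (X f x * D f x ^ 2) := by
      rw [e2, ← e3]
      linarith
    unfold dens
    rw [e4]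
    simp [Nat.factorial]
    ring
  · exact (hhi 0 1).continuousOn_mul hc.continuousOn

theorem D_nonneg (hf : Adm f) {t : ℝ} (h : t ≤ 1) : 0 ≤ D f t := by
  unfold D
  exact integral_nonneg h fun x _ => by linarith [(hf.2 x).2]

theorem D_le (hf : Adm f) (hX : X f 1 = 1 / 2) {t : ℝ} (h : 0 ≤ t) : D f t ≤ 1 / 2 := by
  rw [D_eq hf, hX]
  have := X_lip hf h
  rw [X_zero] at this
  linarith

theorem logX_ac (hf : Adm f) {t0 c : ℝ} (hc : 0 < c) {t1 : ℝ} (h01 : t0 ≤ t1) (h0 : c ≤ X f t0) :
    AbsolutelyContinuousOnInterval (fun t => Real.log (X f t)) t0 t1 := by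
  have hl : LipschitzOnWith (Real.toNNReal (1 / c)) (fun t => Real.log (X f t)) (uIcc t0 t1) := by
    refine LipschitzOnWith.of_dist_le_mul ?_
    have key : ∀ s ∈ uIcc t0 t1, ∀ t ∈ uIcc t0 t1, s ≤ t →
        Real.log (X f t) - Real.log (X f s) ≤ (1 / c) * (t - s) ∧ 0 ≤ Real.log (X f t) - Real.log (X f s) := by
      intro s hs t ht hst
      rw [uIcc_of_le h01] at hs ht
      have h1 : c ≤ X f s := h0.trans (X_mono hf hs.1)
      have h2 : X f s ≤ X f t := X_mono hf hst
      have h3 : X f t - X f s ≤ t - s := X_lip hf hst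
      have hp : 0 < X f s := hc.trans_le h1
      constructor
      · rw [← Real.log_div (hp.trans_le h2).ne' hp.ne']
        have h4 : Real.log (X f t / X f s) ≤ X f t / X f s - 1 :=
          Real.log_le_sub_one_of_pos (div_pos (hp.trans_le h2) hp)
        have h5 : X f t / X f s - 1 = (X f t - X f s) / X f s := by
          rw [sub_div, div_self hp.ne']
        have h6 : (X f t - X f s) / X f s ≤ (t - s) / c :=
          div_le_div₀ (by linarith) h3 hc h1
        calc Real.log (X f t / X f s) ≤ (t - s) / c := by linarith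
          _ = 1 / c * (t - s) := by ring
      · have := Real.log_le_log hp h2
        linarith
    intro s hs t ht
    rw [Real.coe_toNNReal _ (by positivity), Real.dist_eq, Real.dist_eq]
    rcases le_total s t with hst | hst
    · have := key s hs t ht hst
      rw [abs_sub_comm, abs_of_nonneg this.2, abs_sub_comm, abs_of_nonneg (by linarith)]
      exact this.1
    · have := key t ht s hs hst
      rw [abs_of_nonneg this.2, abs_of_nonneg (by linarith)]
      exact this.1
  exact hl.absolutelyContinuousOnInterval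

theorem int_log (hf : Adm f) {t0 t1 c : ℝ} (hc : 0 < c) (h01 : t0 ≤ t1) (h0 : c ≤ X f t0) :
    ∫ x in t0..t1, f x * (X f x)⁻¹ = Real.log (X f t1) - Real.log (X f t0) := by
  refine ftc (logX_ac hf hc h01 h0) ?_
  filter_upwards [X_deriv hf] with x hx hx2
  rw [uIcc_of_le h01] at hx2
  have hp : 0 < X f x := hc.trans_le (h0.trans (X_mono hf hx2.1))
  have := hx.log hp.ne'
  exact this.congr_deriv (by rw [div_eq_mul_inv])

/-- the lower bound -/
theorem lower (hf : Adm f) (hX : X f 1 = 1 / 2) {a : ℝ} (ha : 0 < a) (ha2 : a ≤ 1 / 4) :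
    12 * a * dens f [true, false] - 18 * a ^ 2 - 12 * a ^ 2 * Real.log (1 / (4 * a))
      ≤ dens f [true, true, false, false] := by
  have hc := X_cont hf
  have hd := D_cont hf
  obtain ⟨t0, ht0, hXt⟩ : 2 * a ∈ X f '' Icc 0 1 := by
    apply intermediate_value_Icc zero_le_one hc.continuousOn
    rw [X_zero, hX]
    exact ⟨by linarith, by linarith⟩
  have hI : ∫ x in (0 : ℝ)..1, f x * (X f x * D f x ^ 2 - 2 * a * D f x)
      = (∫ x in (0 : ℝ)..t0, f x * (X f x * D f x ^ 2 - 2 * a * D f x))
        + ∫ x in t0..1, f x * (X f x * D f x ^ 2 - 2 * a * D f x) := by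
    rw [integral_add_adjacent_intervals] <;> exact hint hf (by fun_prop) _ _
  have h1 : ∫ x in (0 : ℝ)..t0, f x * (X f x / 4 - a) ≤ ∫ x in (0 : ℝ)..t0, f x * (X f x * D f x ^ 2 - 2 * a * D f x) := by
    refine integral_mono_on ht0.1 (hint hf (by fun_prop) _ _) (hint hf (by fun_prop) _ _) fun x hx => ?_
    refine mul_le_mul_of_nonneg_left ?_ (hf.2 x).1
    have hXx : X f x ≤ 2 * a := by rw [← hXt]; exact X_mono hf hx.2
    have hX0 : 0 ≤ X f x := by
      have := X_mono hf hx.1
      rwa [X_zero] at this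
    have hD0 := D_nonneg hf (hx.2.trans ht0.2)
    have hD1 := D_le hf hX hx.1
    have h3 : 0 ≤ (1 / 2 - D f x) * (2 * a - X f x * (D f x + 1 / 2)) := by
      apply mul_nonneg (by linarith)
      nlinarith
    nlinarith
  have h2 : ∫ x in t0..1, f x * (-(a ^ 2) * (X f x)⁻¹) ≤ ∫ x in t0..1, f x * (X f x * D f x ^ 2 - 2 * a * D f x) := by
    have hcont : ContinuousOn (fun x => -(a ^ 2) * (X f x)⁻¹) (uIcc t0 1) := by
      refine continuousOn_const.mul (hc.continuousOn.inv₀ fun x hx => ?_)
      rw [uIcc_of_le ht0.2] at hx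
      have : 2 * a ≤ X f x := by rw [← hXt]; exact X_mono hf hx.1
      linarith
    refine integral_mono_on ht0.2 ((hf.ii _ _).mul_continuousOn hcont) (hint hf (by fun_prop) _ _) fun x hx => ?_
    refine mul_le_mul_of_nonneg_left ?_ (hf.2 x).1
    have hXx : 2 * a ≤ X f x := by rw [← hXt]; exact X_mono hf hx.1
    have hp : 0 < X f x := by linarith
    have h3 : 0 ≤ (X f x * D f x - a) ^ 2 * (X f x)⁻¹ := by positivity
    have h4 : (X f x * D f x - a) ^ 2 * (X f x)⁻¹ = X f x * D f x ^ 2 - 2 * a * D f x + a ^ 2 * (X f x)⁻¹ := by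
      field_simp
      ring
    linarith
  have h3 : ∫ x in (0 : ℝ)..t0, f x * (X f x / 4 - a) = -(3 / 2) * a ^ 2 := by
    have hAC : AbsolutelyContinuousOnInterval (fun x => (1 / 8) * (X f x * X f x) - a * X f x) 0 t0 :=
      (((X_ac hf left_mem_uIcc).fun_mul (X_ac hf left_mem_uIcc)).const_mul _).sub ((X_ac hf left_mem_uIcc).const_mul _)
    rw [ftc hAC]
    · rw [hXt, X_zero]
      ring
    · filter_upwards [X_deriv hf] with x hx _
      have := ((hx.mul hx).const_mul (1 / 8 : ℝ)).sub (hx.const_mul a)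
      exact this.congr_deriv (by ring)
  have h4 : ∫ x in t0..1, f x * (-(a ^ 2) * (X f x)⁻¹) = -(a ^ 2) * Real.log (1 / (4 * a)) := by
    have e : ∀ x, f x * (-(a ^ 2) * (X f x)⁻¹) = -(a ^ 2) * (f x * (X f x)⁻¹) := fun x => by ring
    simp only [e]
    rw [intervalIntegral.integral_const_mul, int_log hf (c := 2 * a) (by linarith) ht0.2 (by rw [hXt]), hX, hXt,
      ← Real.log_div (by norm_num) (by linarith)]
    congr 2
    field_simp
    norm_num
  have h5 : ∫ x in (0 : ℝ)..1, f x * (X f x * D f x ^ 2 - 2 * a * D f x)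
      = (∫ x in (0 : ℝ)..1, f x * (X f x * D f x ^ 2)) - 2 * a * ∫ x in (0 : ℝ)..1, f x * D f x := by
    rw [← intervalIntegral.integral_const_mul, ← integral_sub (hint hf (by fun_prop) _ _)]
    · refine intervalIntegral.integral_congr fun x _ => ?_
      ring
    · have := hint hf (g := fun x => 2 * a * D f x) (by fun_prop) 0 1
      refine this.congr fun x _ => ?_
      ring
  rw [dens_main hf, dens_one_zero]
  rw [h5, ] at hI
  linarith

end Pool.Agent.Q281.Pat
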