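import Pool.Agent.Q281.Pat.Bound

/-! The extremal functions. -/

set_option autoImplicit false

open MeasureTheory Set Filter intervalIntegral

namespace Pool.Agent.Q281.Pat

noncomputable def sq (a t : ℝ) : ℝ := Real.sqrt ((t - 1 / 2) ^ 2 + 4 * a)

noncomputable def mid (a t : ℝ) : ℝ := (1 + (t - 1 / 2) / sq a t) / 2

noncomputable def fa (a t : ℝ) : ℝ := if t ≤ 2 * a then 1 else if t ≤ 1 - 2 * a then mid a t else 0

section
variable {a : ℝ}

theorem sq_pos (ha : 0 < a) (t : ℝ) : 0 < sq a t := Real.sqrt_pos.mpr (by positivity)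

theorem sq_sq (ha : 0 < a) (t : ℝ) : sq a t ^ 2 = (t - 1 / 2) ^ 2 + 4 * a := Real.sq_sqrt (by positivity)

theorem abs_le_sq (ha : 0 < a) (t : ℝ) : |t - 1 / 2| ≤ sq a t := by
  rw [← Real.sqrt_sq_eq_abs]
  exact Real.sqrt_le_sqrt (by linarith)

theorem mid_mem (ha : 0 < a) (t : ℝ) : 0 ≤ mid a t ∧ mid a t ≤ 1 := by
  have h1 := abs_le.1 (abs_le_sq ha t)
  have hp := sq_pos ha t
  have h2 : -1 ≤ (t - 1 / 2) / sq a t := by rw [le_div_iff₀ hp]; linarith
  have h3 : (t - 1 / 2) / sq a t ≤ 1 := by rw [div_le_one hp]; linarith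
  unfold mid
  constructor <;> linarith

theorem sq_cont (a : ℝ) : Continuous (sq a) := by
  unfold sq
  fun_prop

theorem mid_cont (ha : 0 < a) : Continuous (mid a) := by
  unfold mid
  have h := sq_cont a
  have h2 : ∀ t, sq a t ≠ 0 := fun t => (sq_pos ha t).ne'
  fun_prop (disch := assumption)

theorem adm_fa (ha : 0 < a) : Adm (fa a) := by
  constructor
  · unfold fa
    refine Measurable.ite (measurableSet_le measurable_id measurable_const) measurable_const ?_
    exact Measurable.ite (measurableSet_le measurable_id measurable_const) (mid_cont ha).measurable measurable_const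
  · intro x
    unfold fa
    have := mid_mem ha x
    split_ifs <;> simp [this.1, this.2]

theorem M_deriv (ha : 0 < a) (t : ℝ) : HasDerivAt (fun t => ((t - 1 / 2) + sq a t) / 2) (mid a t) t := by
  have hp := sq_pos ha t
  have h1 : HasDerivAt (fun t : ℝ => (t - 1 / 2) ^ 2 + 4 * a) (2 * (t - 1 / 2)) t := by
    have := (((hasDerivAt_id t).sub_const (1 / 2)).pow 2).add_const (4 * a)
    exact this.congr_deriv (by simp)
  have h2 := h1.sqrt (by positivity)
  have h3 := (((hasDerivAt_id t).sub_const (1 / 2)).add h2).div_const 2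
  refine h3.congr_deriv ?_
  unfold mid sq
  have hp' : Real.sqrt ((t - 1 / 2) ^ 2 + 4 * a) ≠ 0 := hp.ne'
  field_simp

theorem sq_left (_ha2 : a ≤ 1 / 4) (ha : 0 < a) : sq a (2 * a) = 1 / 2 + 2 * a := by
  unfold sq
  rw [show (2 * a - 1 / 2) ^ 2 + 4 * a = (1 / 2 + 2 * a) ^ 2 by ring]
  exact Real.sqrt_sq (by linarith)

theorem sq_right (ha : 0 < a) : sq a (1 - 2 * a) = 1 / 2 + 2 * a := by
  unfold sq
  rw [show (1 - 2 * a - 1 / 2) ^ 2 + 4 * a = (1 / 2 + 2 * a) ^ 2 by ring]
  exact Real.sqrt_sq (by linarith)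

theorem X_first (ha : 0 < a) {t : ℝ} (h0 : 0 ≤ t) (h1 : t ≤ 2 * a) : X (fa a) t = t := by
  unfold X
  have : ∫ s in (0 : ℝ)..t, fa a s = ∫ s in (0 : ℝ)..t, (1 : ℝ) := by
    refine integral_congr_ae (Eventually.of_forall fun x hx => ?_)
    rw [uIoc_of_le h0] at hx
    unfold fa
    rw [if_pos (hx.2.trans h1)]
  rw [this]
  simp

theorem X_mid (ha : 0 < a) (ha2 : a ≤ 1 / 4) {t : ℝ} (h0 : 2 * a ≤ t) (h1 : t ≤ 1 - 2 * a) :
    X (fa a) t = ((t - 1 / 2) + sq a t) / 2 := by
  have h2 := X_sub (adm_fa ha) (2 * a) t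
  have h3 : ∫ s in (2 * a)..t, fa a s = ∫ s in (2 * a)..t, mid a s := by
    refine integral_congr_ae (Eventually.of_forall fun x hx => ?_)
    rw [uIoc_of_le h0] at hx
    unfold fa
    rw [if_neg (by linarith [hx.1]), if_pos (hx.2.trans h1)]
  rw [h3, integral_eq_sub_of_hasDerivAt (fun x _ => M_deriv ha x) ((mid_cont ha).intervalIntegrable _ _),
    X_first ha (by linarith) le_rfl, sq_left ha2 ha] at h2
  linarith

theorem X_last (ha : 0 < a) (ha2 : a ≤ 1 / 4) {t : ℝ} (h0 : 1 - 2 * a ≤ t) : X (fa a) t = 1 / 2 := by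
  have h2 := X_sub (adm_fa ha) (1 - 2 * a) t
  have h3 : ∫ s in (1 - 2 * a)..t, fa a s = ∫ s in (1 - 2 * a)..t, (0 : ℝ) := by
    refine integral_congr_ae (Eventually.of_forall fun x hx => ?_)
    rw [uIoc_of_le h0] at hx
    unfold fa
    rw [if_neg (by linarith [hx.1]), if_neg (by linarith [hx.1])]
  rw [h3, X_mid ha ha2 (by linarith) le_rfl, sq_right ha] at h2
  simp at h2
  linarith

theorem split3 {g : ℝ → ℝ} (ha : 0 < a) (hg : Continuous g) :
    ∫ x in (0 : ℝ)..1, fa a x * g x = (∫ x in (0 : ℝ)..(2 * a), fa a x * g x)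
      + (∫ x in (2 * a)..(1 - 2 * a), fa a x * g x) + ∫ x in (1 - 2 * a)..1, fa a x * g x := by
  have h := fun u v => hint (adm_fa ha) hg u v
  rw [integral_add_adjacent_intervals (h _ _) (h _ _), integral_add_adjacent_intervals (h _ _) (h _ _)]

theorem last_zero {g : ℝ → ℝ} (ha : 0 < a) (ha2 : a ≤ 1 / 4) : ∫ x in (1 - 2 * a)..1, fa a x * g x = 0 := by
  have h3 : ∫ s in (1 - 2 * a)..1, fa a s * g s = ∫ s in (1 - 2 * a)..1, (0 : ℝ) := by
    refine integral_congr_ae (Eventually.of_forall fun x hx => ?_)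
    rw [uIoc_of_le (by linarith)] at hx
    unfold fa
    rw [if_neg (by linarith [hx.1]), if_neg (by linarith [hx.1]), zero_mul]
  rw [h3]
  simp

theorem D_fa (ha : 0 < a) (ha2 : a ≤ 1 / 4) (t : ℝ) : D (fa a) t = 1 / 2 - t + X (fa a) t := by
  rw [D_eq (adm_fa ha), X_last ha ha2 (by linarith)]
  ring

theorem XD (ha : 0 < a) (ha2 : a ≤ 1 / 4) {t : ℝ} (h0 : 2 * a ≤ t) (h1 : t ≤ 1 - 2 * a) :
    D (fa a) t = a * (X (fa a) t)⁻¹ := by
  have hp : 0 < X (fa a) t := by
    have := X_mono (adm_fa ha) h0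
    rw [X_first ha (by linarith) le_rfl] at this
    linarith
  rw [← div_eq_mul_inv, eq_div_iff hp.ne', D_fa ha ha2, X_mid ha ha2 h0 h1]
  have := sq_sq ha t
  nlinarith

theorem log_mid (ha : 0 < a) (ha2 : a ≤ 1 / 4) :
    ∫ x in (2 * a)..(1 - 2 * a), fa a x * (X (fa a) x)⁻¹ = Real.log (1 / (4 * a)) := by
  rw [int_log (adm_fa ha) (c := 2 * a) (by linarith) (by linarith) (by rw [X_first ha (by linarith) le_rfl]),
    X_first ha (by linarith) le_rfl, X_last ha ha2 le_rfl, ← Real.log_div (by norm_num) (by linarith)]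
  congr 1
  field_simp
  norm_num

theorem dens1_fa (ha : 0 < a) (ha2 : a ≤ 1 / 4) : dens (fa a) [true] = 1 / 2 := by
  rw [dens_one, X_last ha ha2 (by linarith)]

theorem dens2_fa (ha : 0 < a) (ha2 : a ≤ 1 / 4) :
    dens (fa a) [true, false] = 2 * a * (1 + Real.log (1 / (4 * a))) := by
  rw [dens_one_zero, split3 ha (D_cont (adm_fa ha)), last_zero ha ha2]
  have h1 : ∫ x in (0 : ℝ)..(2 * a), fa a x * D (fa a) x = a := by
    have : ∫ x in (0 : ℝ)..(2 * a), fa a x * D (fa a) x = ∫ x in (0 : ℝ)..(2 * a), (1 / 2 : ℝ) := by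
      refine integral_congr_ae (Eventually.of_forall fun x hx => ?_)
      rw [uIoc_of_le (by linarith)] at hx
      rw [D_fa ha ha2, X_first ha hx.1.le hx.2]
      unfold fa
      rw [if_pos hx.2]
      ring
    rw [this]
    simp
    ring
  have h2 : ∫ x in (2 * a)..(1 - 2 * a), fa a x * D (fa a) x = a * Real.log (1 / (4 * a)) := by
    rw [← log_mid ha ha2, ← intervalIntegral.integral_const_mul]
    refine intervalIntegral.integral_congr fun x hx => ?_
    rw [uIcc_of_le (by linarith)] at hx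
    rw [XD ha ha2 hx.1 hx.2]
    ring
  rw [h1, h2]
  ring

theorem dens3_fa (ha : 0 < a) (ha2 : a ≤ 1 / 4) :
    dens (fa a) [true, true, false, false] = 6 * a ^ 2 * (1 + 2 * Real.log (1 / (4 * a))) := by
  have hc := X_cont (adm_fa ha)
  have hd := D_cont (adm_fa ha)
  rw [dens_main (adm_fa ha), split3 ha (by fun_prop), last_zero ha ha2]
  have h1 : ∫ x in (0 : ℝ)..(2 * a), fa a x * (X (fa a) x * D (fa a) x ^ 2) = a ^ 2 / 2 := by
    have : ∫ x in (0 : ℝ)..(2 * a), fa a x * (X (fa a) x * D (fa a) x ^ 2) = ∫ x in (0 : ℝ)..(2 * a), (1 / 4) * x := by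
      refine integral_congr_ae (Eventually.of_forall fun x hx => ?_)
      rw [uIoc_of_le (by linarith)] at hx
      rw [D_fa ha ha2, X_first ha hx.1.le hx.2]
      unfold fa
      rw [if_pos hx.2]
      ring
    rw [this, intervalIntegral.integral_const_mul, integral_id]
    ring
  have h2 : ∫ x in (2 * a)..(1 - 2 * a), fa a x * (X (fa a) x * D (fa a) x ^ 2) = a ^ 2 * Real.log (1 / (4 * a)) := by
    rw [← log_mid ha ha2, ← intervalIntegral.integral_const_mul]
    refine intervalIntegral.integral_congr fun x hx => ?_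
    rw [uIcc_of_le (by linarith)] at hx
    rw [XD ha ha2 hx.1 hx.2]
    have hp : 0 < X (fa a) x := by
      have := X_mono (adm_fa ha) hx.1
      rw [X_first ha (by linarith) le_rfl] at this
      linarith
    field_simp
  rw [h1, h2]
  ring

end

end Pool.Agent.Q281.Pat
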