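import Mathlib

/-! No nonzero polynomial vanishes at `(2a(1+l), 6a²(1+2l))`, `l = log (1/(4a))`, for all small `a`. -/

set_option autoImplicit false

open Filter Topology MvPolynomial

namespace Pool.Agent.Q281.Pat

/-- the first coordinate, with `a = exp (-l) / 4` -/
noncomputable def m (l : ℝ) : ℝ := 2 * (Real.exp (-l) / 4) * (1 + l)

noncomputable def y (l : ℝ) : ℝ := 6 * (Real.exp (-l) / 4) ^ 2 * (1 + 2 * l)

/-- the coordinates divided by their leading terms -/
noncomputable def um (l : ℝ) : ℝ := (1 + l) / l / 2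
noncomputable def uy (l : ℝ) : ℝ := (6 / 16) * ((1 + 2 * l) / l)

theorem um_lim : Tendsto um atTop (𝓝 (1 / 2)) := by
  have h1 : Tendsto (fun l : ℝ => (l⁻¹ + 1) / 2) atTop (𝓝 ((0 + 1) / 2)) :=
    (tendsto_inv_atTop_zero.add tendsto_const_nhds).div_const 2
  have : (0 + 1 : ℝ) / 2 = 1 / 2 := by norm_num
  rw [this] at h1
  refine h1.congr' ?_
  filter_upwards [eventually_gt_atTop 0] with l hl
  unfold um
  field_simp

theorem uy_lim : Tendsto uy atTop (𝓝 (3 / 4)) := by
  have h1 : Tendsto (fun l : ℝ => (6 / 16 : ℝ) * (l⁻¹ + 2)) atTop (𝓝 ((6 / 16) * (0 + 2))) :=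
    (tendsto_inv_atTop_zero.add tendsto_const_nhds).const_mul _
  have : (6 / 16 : ℝ) * (0 + 2) = 3 / 4 := by norm_num
  rw [this] at h1
  refine h1.congr' ?_
  filter_upwards [eventually_gt_atTop 0] with l hl
  unfold uy
  field_simp

theorem m_eq {l : ℝ} (hl : 0 < l) : m l = Real.exp (-l) * l * um l := by
  unfold m um
  field_simp
  ring

theorem y_eq {l : ℝ} (hl : 0 < l) : y l = Real.exp (-l) ^ 2 * l * uy l := by
  unfold y uy
  field_simp
  ring

/-- the scale of the monomial `m^i y^j` -/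
noncomputable def sc (w s : ℕ) (l : ℝ) : ℝ := Real.exp (-l) ^ w * l ^ s

theorem mono_eq {l : ℝ} (hl : 0 < l) (i j : ℕ) :
    m l ^ i * y l ^ j = sc (i + 2 * j) (i + j) l * (um l ^ i * uy l ^ j) := by
  rw [m_eq hl, y_eq hl]
  unfold sc
  ring

/-- a scale with a larger weight, or the same weight and a smaller power, is of smaller order -/
theorem sc_lim {w s w0 s0 : ℕ} (h : w0 < w ∨ (w0 = w ∧ s < s0)) :
    Tendsto (fun l => sc w s l / sc w0 s0 l) atTop (𝓝 0) := by
  rcases h with h | ⟨rfl, h⟩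
  · obtain ⟨k, rfl⟩ : ∃ k, w = w0 + (k + 1) := ⟨w - w0 - 1, by omega⟩
    have h1 : Tendsto (fun l : ℝ => l ^ s * Real.exp (-l)) atTop (𝓝 0) :=
      Real.tendsto_pow_mul_exp_neg_atTop_nhds_zero s
    refine squeeze_zero' ?_ ?_ h1
    · filter_upwards [eventually_gt_atTop 1] with l hl
      unfold sc
      positivity
    · filter_upwards [eventually_gt_atTop 1] with l hl
      have hl0 : 0 < l := by linarith
      have he : 0 < Real.exp (-l) := Real.exp_pos _
      have he1 : Real.exp (-l) ≤ 1 := by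
        rw [Real.exp_le_one_iff]
        linarith
      have e : sc (w0 + (k + 1)) s l / sc w0 s0 l = (l ^ s * Real.exp (-l)) * (Real.exp (-l) ^ k / l ^ s0) := by
        unfold sc
        rw [div_eq_iff (by positivity)]
        field_simp
        ring
      rw [e]
      have h2 : Real.exp (-l) ^ k / l ^ s0 ≤ 1 := by
        rw [div_le_one (by positivity)]
        exact (pow_le_one₀ he.le he1).trans (one_le_pow₀ hl.le)
      exact mul_le_of_le_one_right (by positivity) h2
  · have h1 := tendsto_pow_div_pow_atTop_zero (𝕜 := ℝ) h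
    refine h1.congr' ?_
    filter_upwards [eventually_gt_atTop 0] with l hl
    unfold sc
    have he : Real.exp (-l) ^ w0 ≠ 0 := by positivity
    rw [mul_div_mul_left _ _ he]

theorem no_poly (P : MvPolynomial (Fin 2) ℝ) (hP : P ≠ 0)
    (h : ∀ᶠ l in atTop, eval ![m l, y l] P = 0) : False := by
  classical
  have hne : P.support.Nonempty := support_nonempty.mpr hP
  -- the dominating monomial
  obtain ⟨d0, hd0, hmin⟩ := P.support.exists_min_image
    (fun d => (toLex (d 0 + 2 * d 1, OrderDual.toDual (d 0 + d 1)) : ℕ ×ₗ ℕᵒᵈ)) hne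
  set S : ℝ → ℝ := sc (d0 0 + 2 * d0 1) (d0 0 + d0 1) with hS
  have hev : ∀ l, eval ![m l, y l] P = ∑ d ∈ P.support, coeff d P * (m l ^ d 0 * y l ^ d 1) := by
    intro l
    rw [eval_eq']
    refine Finset.sum_congr rfl fun d _ => ?_
    rw [Fin.prod_univ_two]
    rfl
  have hlim : Tendsto (fun l => eval ![m l, y l] P / S l) atTop
      (𝓝 (coeff d0 P * ((1 / 2) ^ d0 0 * (3 / 4) ^ d0 1))) := by
    have e : ∀ᶠ l in atTop, (∑ d ∈ P.support, coeff d P *
        ((sc (d 0 + 2 * d 1) (d 0 + d 1) l / S l) * (um l ^ d 0 * uy l ^ d 1))) = eval ![m l, y l] P / S l := by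
      filter_upwards [eventually_gt_atTop 0] with l hl
      rw [hev, Finset.sum_div]
      refine Finset.sum_congr rfl fun d _ => ?_
      rw [mono_eq hl]
      ring
    refine Tendsto.congr' e ?_
    have hs : coeff d0 P * ((1 / 2) ^ d0 0 * (3 / 4 : ℝ) ^ d0 1)
        = ∑ d ∈ P.support, (if d = d0 then coeff d0 P * ((1 / 2) ^ d0 0 * (3 / 4 : ℝ) ^ d0 1) else 0) := by
      rw [Finset.sum_ite_eq' P.support d0, if_pos hd0]
    rw [hs]
    refine tendsto_finsetSum _ fun d hd => ?_
    have hu : Tendsto (fun l => um l ^ d 0 * uy l ^ d 1) atTop (𝓝 ((1 / 2) ^ d 0 * (3 / 4) ^ d 1)) :=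
      (um_lim.pow _).mul (uy_lim.pow _)
    by_cases hdd : d = d0
    · subst hdd
      rw [if_pos rfl]
      have h1 : Tendsto (fun l => sc (d 0 + 2 * d 1) (d 0 + d 1) l / S l) atTop (𝓝 1) := by
        refine tendsto_const_nhds.congr' ?_
        filter_upwards [eventually_gt_atTop 0] with l hl
        rw [hS, div_self]
        unfold sc
        positivity
      have := (h1.mul hu).const_mul (coeff d P)
      rwa [one_mul] at this
    · rw [if_neg hdd]
      have h2 := hmin d hd
      rw [Prod.Lex.toLex_le_toLex] at h2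
      have h3 : d0 0 + 2 * d0 1 < d 0 + 2 * d 1 ∨ (d0 0 + 2 * d0 1 = d 0 + 2 * d 1 ∧ d 0 + d 1 < d0 0 + d0 1) := by
        rcases h2 with h2 | ⟨h2, h4⟩
        · exact Or.inl h2
        · refine Or.inr ⟨h2, ?_⟩
          have h5 : d 0 + d 1 ≤ d0 0 + d0 1 := h4
          refine lt_of_le_of_ne h5 fun h6 => hdd ?_
          ext i
          fin_cases i
          · change d 0 = d0 0
            omega
          · change d 1 = d0 1
            simp only at h2
            omega
      have h4 := ((sc_lim h3).mul hu).const_mul (coeff d P)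
      rw [zero_mul, mul_zero] at h4
      exact h4
  have h0 : Tendsto (fun l => eval ![m l, y l] P / S l) atTop (𝓝 0) := by
    refine tendsto_const_nhds.congr' ?_
    filter_upwards [h] with l hl
    rw [hl, zero_div]
  have h1 := tendsto_nhds_unique hlim h0
  have h2 : coeff d0 P ≠ 0 := mem_support_iff.mp hd0
  have h3 : ((1 / 2) ^ d0 0 * (3 / 4 : ℝ) ^ d0 1) ≠ 0 := by positivity
  exact mul_ne_zero h2 h3 h1

end Pool.Agent.Q281.Pat
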